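import Pool.Agent.X119.WinLin

/-!
# Regular integers for long Cunningham chains of the second kind with almost prime terms

The terms of the Cunningham sequence of the second kind which starts at `n` are `c j n = 2 ^ j * (n - 1) + 1`,
`j = 0, 1, ...`. In every short interval `(X, X + Y]`, `X ^ θ ≤ Y ≤ X`, a positive proportion of ALL integers `n`
is regular: every interval around `n` whose length is between `K log ^ k X` and `Y` contains the right order of
integers `m` such that the first `k` terms of the sequence which starts at `m` have at most `r` prime factors, all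
of them larger than `X ^ (1 / r)`, and up to `δ` these integers have a constant density around `n` at all but
`B (δ)` dyadic scales.
-/

set_option autoImplicit false

namespace Pool.Agent.Results.MP_9f2731_nt.RegularWindows

open Finset Filter
open Pool.Agent.X119.Win (Order badScales)

/-- The terms of the Cunningham sequence of the second kind. -/
def c (j n : ℕ) : ℕ := 2 ^ j * (n - 1) + 1

/-- `c 0 m, ..., c (k - 1) m` have at most `r` prime factors each (with multiplicity), all of them larger than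
`X ^ (1 / r)`. -/
def Almost (k r X m : ℕ) : Prop :=
  ∀ j < k, (c j m).primeFactorsList.length ≤ r ∧
    ∀ p : ℕ, p.Prime → p ∣ c j m → (X : ℝ) ^ (1 / (r : ℝ)) < (p : ℝ)

open Classical in
/-- **Regular integers.** -/
theorem result (k : ℕ) (hk : 1 ≤ k) (θ : ℝ) (hθ : 0 < θ) (hθ1 : θ ≤ 1) :
    ∃ (r : ℕ) (c₁ c₂ K κ : ℝ), 0 < c₁ ∧ 0 < c₂ ∧ 0 < K ∧ 0 < κ ∧ ∀ δ : ℝ, 0 < δ → ∃ B : ℕ,
      ∀ᶠ X : ℕ in atTop, ∀ Y : ℕ, (X : ℝ) ^ θ ≤ Y → Y ≤ X →
        κ * Y ≤ (((Finset.Ioc X (X + Y)).filter (fun n =>
          Order (Almost k r X) k c₁ c₂ K X Y n ∧ badScales (Almost k r X) k c₁ c₂ δ X Y n ≤ B)).card : ℝ) := by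
  haveI : Nonempty (Fin k) := ⟨⟨0, hk⟩⟩
  exact Pool.Agent.X119.WinLin.lin_windows (ι := Fin k) (fun i => c i) (fun i => 2 ^ (i : ℕ))
    (fun i => 1 - (2 : ℤ) ^ (i : ℕ)) (fun i => by positivity)
    (fun i => ⟨1, 1, by push_cast; ring⟩) (fun i j h _ => Fin.ext (Nat.pow_right_injective le_rfl h))
    (fun p hp => by
      refine ⟨1, fun i hd => ?_⟩
      have h2 : (p : ℤ) ∣ 1 := by
        have h3 : (((2 ^ (i : ℕ) : ℕ) : ℤ)) * ((1 : ℕ) : ℤ) + (1 - (2 : ℤ) ^ (i : ℕ)) = 1 := by
          push_cast
          ring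
        rwa [h3] at hd
      exact hp.one_lt.ne' (by exact_mod_cast Int.eq_one_of_dvd_one (Int.natCast_nonneg p) h2))
    (fun i m hm => by
      unfold c
      rw [Nat.cast_add, Nat.cast_mul, Nat.cast_sub hm]
      push_cast
      ring)
    (fun r X m => Almost k r X m)
    (fun r X m hm => by
      unfold Almost Pool.Agent.X119.WinLin.AP
      exact ⟨fun h i => h i i.2, fun h j hj => h ⟨j, hj⟩⟩)
    k (Fintype.card_fin k) θ hθ hθ1

end Pool.Agent.Results.MP_9f2731_nt.RegularWindows
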